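import Pool.Agent.K1H49.PL.Big3

/-!
# MP_0ff3ec_lc: SOP1 and SOP2 are equivalent for all positive theories

The definitions (`HInd`, `IsMod`, `JCP`, `IsNeg2`, `HasSOP1`, `HasSOP2`) are in
`Pool/Agent/K1H49/PL/Def.lean`, those of positive formulas (`PF`) in
`Pool/Agent/K1H49/PL/Fml.lean`, `PSatP` in `Pool/Agent/K1H49/PL/Gen.lean` and `BigMonster` in
`Pool/Agent/K1H49/PL/Big.lean`.
-/

namespace Pool.Agent.Results.MP_0ff3ec_lc.AllTheories

open Pool.Agent.K1H49.PL

universe u

theorem result {L : FirstOrder.Language.{0, 0}} (T : Set (HInd L)) (hJ : JCP.{u} T)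
    (M : Type u) [L.Structure M] (hM : BigMonster T M) : HasSOP1 T M ↔ HasSOP2 T M :=
  full_result T M hJ hM

end Pool.Agent.Results.MP_0ff3ec_lc.AllTheories
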